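import Pool.Agent.W8.KU.Stm

/-! Project KU, part Fr: the frontiers of the cells -/

set_option autoImplicit false

open Metric Pool.Agent.W8.KU

namespace Pool.Agent.W403.KU

lemma fr_union {X : Type*} [TopologicalSpace X] (A B : Set X)
    (h : Disjoint (closure A) (closure B)) : frontier (A ∪ B) = frontier A ∪ frontier B := by
  have key : ∀ A B : Set X, Disjoint (closure A) (closure B) → ∀ x ∈ closure A,
      (x ∈ closure (A ∪ B)ᶜ ↔ x ∈ closure Aᶜ) := by
    intro A B h x hx
    have hxB : x ∈ (closure B)ᶜ := fun hb => Set.disjoint_left.mp h hx hb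
    constructor
    · intro h1
      exact closure_mono (Set.compl_subset_compl.mpr Set.subset_union_left) h1
    · intro h1
      have h2 := (isClosed_closure (s := B)).isOpen_compl.inter_closure ⟨hxB, h1⟩
      refine closure_mono ?_ h2
      intro y hy
      rw [Set.compl_union]
      exact ⟨hy.2, fun hb => hy.1 (subset_closure hb)⟩
  ext x
  rw [frontier_eq_closure_inter_closure, frontier_eq_closure_inter_closure,
    frontier_eq_closure_inter_closure, closure_union]
  constructor
  · rintro ⟨h1 | h1, h2⟩
    · exact Or.inl ⟨h1, (key A B h x h1).mp h2⟩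
    · rw [Set.union_comm] at h2
      exact Or.inr ⟨h1, (key B A h.symm x h1).mp h2⟩
  · rintro (⟨h1, h2⟩ | ⟨h1, h2⟩)
    · exact ⟨Or.inl h1, (key A B h x h1).mpr h2⟩
    · refine ⟨Or.inr h1, ?_⟩
      rw [Set.union_comm]
      exact (key B A h.symm x h1).mpr h2

lemma fr_diff {X : Type*} [TopologicalSpace X] (A B : Set X) (hA : IsOpen A) (hB : IsClosed B)
    (hBA : B ⊆ A) : frontier (A \ B) = frontier A ∪ frontier B := by
  have hAB : IsOpen (A \ B) := hA.sdiff hB
  ext x
  rw [hAB.frontier_eq, hA.frontier_eq, frontier_eq_closure_inter_closure, hB.closure_eq]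
  constructor
  · rintro ⟨h1, h2⟩
    by_cases hx : x ∈ A
    · right
      have hxB : x ∈ B := by
        by_contra hxB
        exact h2 ⟨hx, hxB⟩
      refine ⟨hxB, ?_⟩
      exact closure_mono (fun y hy => hy.2) h1
    · left
      exact ⟨closure_mono (fun y hy => hy.1) h1, hx⟩
  · rintro (⟨h1, h2⟩ | ⟨h1, h2⟩)
    · have hxB : x ∈ Bᶜ := fun hb => h2 (hBA hb)
      refine ⟨?_, fun h => h2 h.1⟩
      have h3 := hB.isOpen_compl.inter_closure ⟨hxB, h1⟩
      refine closure_mono ?_ h3
      intro y hy
      exact ⟨hy.2, hy.1⟩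
    · refine ⟨?_, fun h => h.2 h1⟩
      have h3 := hA.inter_closure ⟨hBA h1, h2⟩
      refine closure_mono ?_ h3
      intro y hy
      exact ⟨hy.1, hy.2⟩

lemma dist_P0 : dist P0 (0 : E3) = 20 := by
  rw [dist_zero_right, P0, EuclideanSpace.norm_single]
  norm_num

theorem Fr_proof : Fr := by
  have h2 : (2 : ℝ) ≠ 0 := by norm_num
  have h3 : (3 : ℝ) ≠ 0 := by norm_num
  have h6 : (6 : ℝ) ≠ 0 := by norm_num
  have hcell0 : cell Om (some 0) = ball P0 2 ∪ ball 0 3 := rfl
  have hcell1 : cell Om (some 1) = ball 0 6 \ closedBall 0 3 := rfl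
  have hdisj1 : Disjoint (closedBall P0 2) (closedBall (0 : E3) 3) :=
    closedBall_disjoint_closedBall (by rw [dist_P0]; norm_num)
  have hdisj2 : Disjoint (closedBall P0 2) (closedBall (0 : E3) 6) :=
    closedBall_disjoint_closedBall (by rw [dist_P0]; norm_num)
  have hcl : closure (⋃ i, Om i) = closedBall P0 2 ∪ closedBall 0 6 := by
    have hU : (⋃ i, Om i) = (ball P0 2 ∪ ball 0 3) ∪ (ball 0 6 \ closedBall 0 3) := by
      ext x
      rw [Set.mem_iUnion, Fin.exists_fin_two]
      rfl
    rw [hU, closure_union, closure_union, closure_ball P0 h2, closure_ball 0 h3]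
    ext x
    constructor
    · rintro ((h | h) | h)
      · exact Or.inl h
      · exact Or.inr (closedBall_subset_closedBall (by norm_num) h)
      · right
        rw [← closure_ball (0 : E3) h6]
        exact closure_mono (fun y hy => hy.1) h
    · rintro (h | h)
      · exact Or.inl (Or.inl h)
      · by_cases hx : x ∈ closedBall (0 : E3) 3
        · exact Or.inl (Or.inr hx)
        · right
          rw [← closure_ball (0 : E3) h6] at h
          have h4 := (isClosed_closedBall (x := (0 : E3)) (ε := 3)).isOpen_compl.inter_closure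
            ⟨hx, h⟩
          refine closure_mono ?_ h4
          intro y hy
          exact ⟨hy.2, hy.1⟩
  have hnone : cell Om none = (closedBall P0 2 ∪ closedBall 0 6)ᶜ := by
    have : cell Om none = (closure (⋃ i, Om i))ᶜ := rfl
    rw [this, hcl]
  refine ⟨hnone, ?_, ?_, ?_⟩
  · rw [hcell0, fr_union _ _ (by rw [closure_ball P0 h2, closure_ball 0 h3]; exact hdisj1),
      frontier_ball P0 h2, frontier_ball 0 h3]
  · rw [hcell1, fr_diff _ _ isOpen_ball isClosed_closedBall
      (closedBall_subset_ball (by norm_num)), frontier_ball 0 h6, frontier_closedBall 0 h3,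
      Set.union_comm]
  · rw [hnone, frontier_compl, fr_union _ _ (by
      rw [isClosed_closedBall.closure_eq, isClosed_closedBall.closure_eq]; exact hdisj2),
      frontier_closedBall P0 h2, frontier_closedBall 0 h6]

end Pool.Agent.W403.KU
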